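import Mathlib

set_option autoImplicit false

namespace Pool.Agent.Results.MP_a2e3d9_lc.NoGoodSet

open Filter Set Topology

/-- `B` meets every class of the orbit equivalence relation of `f`, is mapped into itself by `f`,
and `f` restricted to `B` is finite-to-one -/
def Good {X : Type} (f : X → X) (B : Set X) : Prop :=
  (∀ x, ∃ b ∈ B, ∃ m n : ℕ, f^[m] x = f^[n] b) ∧ f '' B ⊆ B ∧ ∀ y, (f ⁻¹' {y} ∩ B).Finite

def F (p : ℕ × (ℕ → ℕ)) : ℕ × (ℕ → ℕ) := (p.1 + 1, fun i => p.2 (i + 1))

def cons (i : ℕ) (y : ℕ → ℕ) : ℕ → ℕ := fun k => Nat.casesOn k i y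

lemma iter (n : ℕ) (p : ℕ × (ℕ → ℕ)) : F^[n] p = (p.1 + n, fun i => p.2 (i + n)) := by
  induction n with
  | zero => rfl
  | succ n ih =>
    rw [Function.iterate_succ_apply', ih]
    simp only [F, Prod.mk.injEq]
    exact ⟨rfl, funext fun i => by rw [add_assoc, add_comm 1 n]⟩

lemma open_mk (n : ℕ) : IsOpenMap fun y : ℕ → ℕ => (n, y) := by
  intro s hs
  convert (isOpen_discrete {n}).prod hs using 1
  ext ⟨a, b⟩; simp [and_comm, eq_comm]

lemma cont_cons (i : ℕ) : Continuous (cons i) :=
  continuous_pi fun k => by cases k <;> simp only [cons] <;> fun_prop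

lemma open_cons (i : ℕ) : IsOpenMap (cons i) := by
  intro s hs
  have h1 : IsOpen {x : ℕ → ℕ | x 0 = i} :=
    (isOpen_discrete {i}).preimage (f := fun x : ℕ → ℕ => x 0) (by fun_prop)
  have h2 : IsOpen ((fun (x : ℕ → ℕ) k => x (k + 1)) ⁻¹' s) := hs.preimage (by fun_prop)
  convert h1.inter h2 using 1
  ext x
  constructor
  · rintro ⟨y, hy, rfl⟩; exact ⟨rfl, hy⟩
  · rintro ⟨h, hy⟩
    exact ⟨_, hy, funext fun k => by cases k; exacts [h.symm, rfl]⟩

lemma open_shift (n : ℕ) : IsOpenMap fun (x : ℕ → ℕ) i => x (i + n) :=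
  IsOpenMap.of_sections fun x => ⟨fun y i => if i < n then x i else y (i - n),
    Continuous.continuousAt (continuous_pi fun i => by split_ifs <;> fun_prop),
    funext fun i => by
      beta_reduce
      split_ifs with h
      exacts [rfl, by rw [Nat.sub_add_cancel (not_lt.1 h)]],
    fun y => funext fun i => by simp⟩

lemma no_good (B : Set (ℕ × (ℕ → ℕ))) (hB : BaireMeasurableSet B) : ¬ Good F B := by
  rintro ⟨h1, h2, h3⟩
  obtain ⟨U, hU, hBU⟩ := hB.residualEq_isOpen
  have hG : {p | p ∈ B ↔ p ∈ U} ∈ residual _ := by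
    filter_upwards [hBU] with p hp using iff_of_eq hp
  have hR : U ∪ (closure U)ᶜ ∈ residual _ := by
    apply residual_of_dense_open (hU.union isClosed_closure.isOpen_compl)
    rw [dense_iff_closure_eq, closure_union, eq_univ_iff_forall]
    intro p
    by_cases h : p ∈ closure U
    exacts [Or.inl h, Or.inr (subset_closure h)]
  have key : ∀ n, ∃ z, (n, z) ∉ closure U := by
    intro n
    by_contra hc
    push Not at hc
    have : ∀ᶠ y in residual (ℕ → ℕ), ∀ i, (n, cons i y) ∈ B := by
      rw [eventually_countable_forall]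
      intro i
      have t := tendsto_residual_of_isOpenMap (f := fun y => (n, cons i y))
        (continuous_const.prodMk (cont_cons i)) ((open_mk n).comp (open_cons i))
      filter_upwards [t hG, t hR] with y a b
      exact a.2 (b.resolve_right fun h => h (hc _))
    obtain ⟨y, hy⟩ := (dense_of_mem_residual this).nonempty
    refine infinite_of_injective_forall_mem (f := fun i => (n, cons i y)) (fun i j h => ?_)
      (fun i => mem_inter rfl (hy i)) (h3 (n + 1, y))
    exact congrFun (congrArg Prod.snd h) 0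
  have hW : ∀ᶠ x in residual (ℕ → ℕ), ∀ N, ∃ n ≥ N, (n, fun i => x (i + n)) ∉ closure U := by
    rw [eventually_countable_forall]
    intro N
    apply residual_of_dense_open
    · have : {x : ℕ → ℕ | ∃ n ≥ N, (n, fun i => x (i + n)) ∉ closure U} =
          ⋃ n ≥ N, (fun x : ℕ → ℕ => (n, fun i => x (i + n))) ⁻¹' (closure U)ᶜ := by
        ext x; simp
      rw [this]
      exact isOpen_biUnion fun n _ => isClosed_closure.isOpen_compl.preimage (by fun_prop)
    · intro x
      choose z hz using key
      refine mem_closure_of_tendsto (b := atTop)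
        (f := fun n i => if i < n then x i else z n (i - n)) ?_ ?_
      · rw [tendsto_pi_nhds]
        intro i
        refine tendsto_const_nhds.congr' ?_
        filter_upwards [eventually_gt_atTop i] with n hn using (if_pos hn).symm
      · filter_upwards [eventually_ge_atTop N] with n hn
        exact ⟨n, hn, by simpa using hz n⟩
  have hV : ∀ᶠ x in residual (ℕ → ℕ), ∀ n, (n, fun i => x (i + n)) ∈ B →
      (n, fun i => x (i + n)) ∈ U := by
    rw [eventually_countable_forall]
    intro n
    have t := tendsto_residual_of_isOpenMap (f := fun x : ℕ → ℕ => (n, fun i => x (i + n)))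
      (by fun_prop) ((open_mk n).comp (open_shift n))
    filter_upwards [t hG] with y a using a.1
  obtain ⟨x, hx1, hx2⟩ := (dense_of_mem_residual (hW.and hV)).nonempty
  obtain ⟨b, hb, m, k, e⟩ := h1 (0, x)
  obtain ⟨n, hn, h4⟩ := hx1 m
  have h5 : ∀ j, F^[j] b ∈ B := fun j => by
    induction j with
    | zero => exact hb
    | succ j ih => rw [Function.iterate_succ_apply']; exact h2 ⟨_, ih, rfl⟩
  have h6 : F^[n] (0, x) ∈ B := by
    rw [show n = (n - m) + m by omega, Function.iterate_add_apply, e, ← Function.iterate_add_apply]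
    exact h5 _
  rw [iter, zero_add] at h6
  exact h4 (subset_closure (hx2 n h6))

theorem result : ∃ (X : Type) (_ : TopologicalSpace X) (_ : PolishSpace X) (_ : MeasurableSpace X)
    (_ : BorelSpace X) (f : X → X), Measurable f ∧ (∀ y, (f ⁻¹' {y}).Countable) ∧
    (∀ x n, 1 ≤ n → f^[n] x ≠ x) ∧ (¬ ∃ x : ℕ → X, ∀ i, f (x (i + 1)) = x i) ∧
    ∀ B : Set X, MeasurableSet B ∨ BaireMeasurableSet B → ¬ Good f B := by
  refine ⟨ℕ × (ℕ → ℕ), inferInstance, inferInstance, inferInstance, inferInstance, F,
    Continuous.measurable (by unfold F; fun_prop), fun y => ?_, fun x n hn h => ?_, ?_,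
    fun B hB => no_good B (hB.elim MeasurableSet.baireMeasurableSet id)⟩
  · refine (countable_range fun i => (y.1 - 1, cons i y.2)).mono ?_
    rintro ⟨a, x⟩ rfl
    exact ⟨x 0, Prod.ext rfl (funext fun k => by cases k <;> rfl)⟩
  · have := congrArg Prod.fst h
    rw [iter] at this
    simp only at this
    omega
  · rintro ⟨x, hx⟩
    have : ∀ i, (x i).1 + i = (x 0).1 := fun i => by
      induction i with
      | zero => rfl
      | succ i ih => rw [← ih, ← hx i]; simp only [F]; omega
    have := this ((x 0).1 + 1)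
    omega

end Pool.Agent.Results.MP_a2e3d9_lc.NoGoodSet
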